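import Pool.Agent.Lib.MP_04668c_co.E.Base

/-!
# LO: the Erdős–Littlewood–Offord inequality in squared form
-/

set_option autoImplicit false
set_option linter.unusedSectionVars false

namespace Pool.Agent.Lib.MP_04668c_co.E.H94

open Finset Classical Module
open Pool.Agent.Lib.MP_04668c_co

theorem lo_even (k : ℕ) : (Nat.centralBinom k) ^ 2 * (2 * k + 1) ≤ 16 ^ k := by
  induction k with
  | zero => simp
  | succ k ih =>
    have h1 := Nat.succ_mul_centralBinom_succ k
    have h2 : (k + 1) ^ 2 * ((Nat.centralBinom (k + 1)) ^ 2 * (2 * (k + 1) + 1)) ≤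
        (k + 1) ^ 2 * 16 ^ (k + 1) := by
      calc (k + 1) ^ 2 * ((Nat.centralBinom (k + 1)) ^ 2 * (2 * (k + 1) + 1))
          = ((k + 1) * Nat.centralBinom (k + 1)) ^ 2 * (2 * k + 3) := by ring
        _ = (2 * (2 * k + 1) * Nat.centralBinom k) ^ 2 * (2 * k + 3) := by rw [h1]
        _ = (4 * (2 * k + 1) * (2 * k + 3)) * ((Nat.centralBinom k) ^ 2 * (2 * k + 1)) := by ring
        _ ≤ (16 * (k + 1) ^ 2) * 16 ^ k := by
          apply Nat.mul_le_mul _ ih
          nlinarith
        _ = (k + 1) ^ 2 * 16 ^ (k + 1) := by ring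
    exact Nat.le_of_mul_le_mul_left h2 (by positivity)

theorem lo_choose (m : ℕ) : (Nat.choose m (m / 2)) ^ 2 * (m + 1) ≤ 4 ^ m := by
  obtain ⟨k, hk | hk⟩ := Nat.even_or_odd' m
  · subst hk
    have h := lo_even k
    rw [Nat.centralBinom_eq_two_mul_choose] at h
    have h2 : 2 * k / 2 = k := by omega
    rw [h2]
    calc (Nat.choose (2 * k) k) ^ 2 * (2 * k + 1) ≤ 16 ^ k := h
      _ = 4 ^ (2 * k) := by rw [pow_mul]; norm_num
  · subst hk
    have h := lo_even (k + 1)
    rw [Nat.centralBinom_eq_two_mul_choose] at h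
    have h3 : Nat.choose (2 * (k + 1)) (k + 1) = 2 * Nat.choose (2 * k + 1) k := by
      have h4 : 2 * (k + 1) = (2 * k + 1) + 1 := by ring
      rw [h4, Nat.choose_succ_succ, Nat.choose_symm_half]
      ring
    have h2 : (2 * k + 1) / 2 = k := by omega
    rw [h2]
    rw [h3] at h
    have h5 : 4 * ((Nat.choose (2 * k + 1) k) ^ 2 * (2 * k + 1 + 1)) ≤ 4 * 4 ^ (2 * k + 1) := by
      calc 4 * ((Nat.choose (2 * k + 1) k) ^ 2 * (2 * k + 1 + 1))
          = (2 * Nat.choose (2 * k + 1) k) ^ 2 * (2 * k + 2) := by ring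
        _ ≤ (2 * Nat.choose (2 * k + 1) k) ^ 2 * (2 * (k + 1) + 1) :=
          Nat.mul_le_mul_left _ (by omega)
        _ ≤ 16 ^ (k + 1) := h
        _ = 4 * 4 ^ (2 * k + 1) := by
          have : (16 : ℕ) = 4 ^ 2 := by norm_num
          rw [this, ← pow_mul, ← pow_succ']
          congr 1
    exact Nat.le_of_mul_le_mul_left h5 (by norm_num)

theorem lo_nonzero (Y : Type) [Fintype Y] [inst : Fintype (Y → Bool)] (a : Y → ℝ) (t : ℝ)
    (ha : ∀ y, a y ≠ 0) :
    (univ.filter (fun μ : Y → Bool => ∑ x, (if μ x = true then a x else 0) = t)).card ≤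
      (Fintype.card Y).choose (Fintype.card Y / 2) := by
  set f : (Y → Bool) → Finset Y := fun μ => univ.filter (fun y => μ y = decide (0 < a y)) with hf
  have hinj : Function.Injective f := by
    intro μ μ' h
    funext y
    have h1 : y ∈ f μ ↔ y ∈ f μ' := by rw [h]
    simp only [hf, mem_filter, mem_univ, true_and] at h1
    revert h1
    cases μ y <;> cases μ' y <;> cases decide (0 < a y) <;> simp
  have hcard : (univ.filter (fun μ : Y → Bool =>
      ∑ x, (if μ x = true then a x else 0) = t)).card =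
      ((univ.filter (fun μ : Y → Bool =>
        ∑ x, (if μ x = true then a x else 0) = t)).image f).card := by
    rw [card_image_of_injective _ hinj]
  rw [hcard]
  apply IsAntichain.sperner
  intro s hs s' hs' hne hsub
  simp only [coe_image, Set.mem_image, coe_filter, mem_univ, true_and, Set.mem_ofPred_eq] at hs hs'
  obtain ⟨μ, hμ, rfl⟩ := hs
  obtain ⟨μ', hμ', rfl⟩ := hs'
  have hssub : f μ ⊂ f μ' := lt_of_le_of_ne hsub hne
  obtain ⟨y, hy', hy⟩ := Finset.exists_of_ssubset hssub
  have hlt : ∑ x, (if μ x = true then a x else 0) < ∑ x, (if μ' x = true then a x else 0) := by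
    apply Finset.sum_lt_sum
    · intro x _
      have h1 : x ∈ f μ → x ∈ f μ' := fun h => hsub h
      simp only [hf, mem_filter, mem_univ, true_and] at h1
      rcases lt_or_gt_of_ne (ha x) with h0 | h0
      · have hd : decide (0 < a x) = false := by simp [h0.le]
        rw [hd] at h1
        cases hm : μ x <;> cases hm' : μ' x <;> simp_all [h0.le]
      · have hd : decide (0 < a x) = true := by simp [h0]
        rw [hd] at h1
        cases hm : μ x <;> cases hm' : μ' x <;> simp_all [h0.le]
    · refine ⟨y, mem_univ y, ?_⟩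
      simp only [hf, mem_filter, mem_univ, true_and] at hy hy'
      rcases lt_or_gt_of_ne (ha y) with h0 | h0
      · have hd : decide (0 < a y) = false := by simp [h0.le]
        rw [hd] at hy hy'
        cases hm : μ y <;> cases hm' : μ' y <;> simp_all
      · have hd : decide (0 < a y) = true := by simp [h0]
        rw [hd] at hy hy'
        cases hm : μ y <;> cases hm' : μ' y <;> simp_all
  rw [hμ, hμ'] at hlt
  exact lt_irrefl _ hlt

theorem lo_split (X : Type) [Fintype X] (a : X → ℝ) (t : ℝ) :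
    (univ.filter (fun μ : X → Bool => ∑ x, (if μ x = true then a x else 0) = t)).card ≤
      (univ.filter (fun μ : {x // a x ≠ 0} → Bool =>
        ∑ x, (if μ x = true then a x else 0) = t)).card * 2 ^ (Fintype.card {x // ¬ a x ≠ 0}) := by
  have h2 : (2 : ℕ) ^ (Fintype.card {x // ¬ a x ≠ 0}) =
      (univ : Finset ({x // ¬ a x ≠ 0} → Bool)).card := by
    rw [card_univ, Fintype.card_fun, Fintype.card_bool]
  rw [h2, ← card_product]
  apply Finset.card_le_card_of_injOn
    (fun μ : X → Bool => ((fun x : {x // a x ≠ 0} => μ x), (fun x : {x // ¬ a x ≠ 0} => μ x)))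
  · intro μ hμ
    simp only [coe_filter, mem_univ, true_and, Set.mem_ofPred_eq] at hμ
    simp only [coe_product, Set.mem_prod, coe_filter, mem_univ, true_and, Set.mem_ofPred_eq,
      coe_univ, Set.mem_univ, and_true]
    rw [← hμ]
    have h3 : ∑ x, (if μ x = true then a x else 0) =
        ∑ x ∈ univ.filter (fun x => a x ≠ 0), (if μ x = true then a x else 0) := by
      symm
      apply Finset.sum_subset (filter_subset _ _)
      intro x _ hx
      simp only [mem_filter, mem_univ, true_and, not_not] at hx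
      simp [hx]
    rw [h3]
    exact (Finset.sum_subtype _ (by simp) (fun x => if μ x = true then a x else 0)).symm
  · intro μ _ μ' _ h
    simp only [Prod.mk.injEq] at h
    funext x
    by_cases hx : a x ≠ 0
    · exact congrFun h.1 ⟨x, hx⟩
    · exact congrFun h.2 ⟨x, hx⟩

theorem lo : LoStatement := by
  intro X _ a t
  have h1 := lo_split X a t
  have h2 := lo_nonzero {x // a x ≠ 0} (fun x => a x) t (fun y => y.2)
  have hm : (univ.filter (fun x => a x ≠ 0)).card = Fintype.card {x // a x ≠ 0} := by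
    rw [Fintype.card_subtype]
  have hX : Fintype.card X = Fintype.card {x // a x ≠ 0} + Fintype.card {x // ¬ a x ≠ 0} := by
    rw [← Fintype.card_sum]
    exact Fintype.card_congr (Equiv.sumCompl (fun x => a x ≠ 0)).symm
  rw [hm, hX]
  have h3 := h1.trans (Nat.mul_le_mul_right _ h2)
  have h4 := lo_choose (Fintype.card {x // a x ≠ 0})
  calc _ ≤ ((Fintype.card {x // a x ≠ 0}).choose (Fintype.card {x // a x ≠ 0} / 2) *
        2 ^ (Fintype.card {x // ¬ a x ≠ 0})) ^ 2 * (Fintype.card {x // a x ≠ 0} + 1) :=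
        Nat.mul_le_mul_right _ (Nat.pow_le_pow_left h3 2)
    _ = ((Fintype.card {x // a x ≠ 0}).choose (Fintype.card {x // a x ≠ 0} / 2) ^ 2 *
        (Fintype.card {x // a x ≠ 0} + 1)) * (2 ^ (Fintype.card {x // ¬ a x ≠ 0})) ^ 2 := by ring
    _ ≤ 4 ^ (Fintype.card {x // a x ≠ 0}) * (2 ^ (Fintype.card {x // ¬ a x ≠ 0})) ^ 2 :=
        Nat.mul_le_mul_right _ h4
    _ = 4 ^ (Fintype.card {x // a x ≠ 0} + Fintype.card {x // ¬ a x ≠ 0}) := by
        rw [pow_add, ← pow_mul, mul_comm (Fintype.card {x // ¬ a x ≠ 0}) 2, pow_mul]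
        norm_num

end Pool.Agent.Lib.MP_04668c_co.E.H94
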